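import Pool.Agent.T2h14.DA.Defs
import Pool.Agent.R852.MX.Top

set_option autoImplicit false
set_option linter.unusedSectionVars false
set_option linter.unusedVariables false

/-! # The motivic zeta functions with fixed angular component -/

namespace Pool.Agent.T2h14.DA

open MvPolynomial Pool.Agent.W428.MOT Pool.Agent.TH192.DT Pool.Agent.TH192.MT
  Pool.Agent.TH192.MU Pool.Agent.TH192.PA Pool.Agent.W574.SM Pool.Agent.H628R4.TP
  Pool.Agent.R852.MX

variable {T B : ℕ}

/-- the zeta functions of the product families, for one tuple of exponents -/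
theorem rt_blk {K : Type} [Field K] {R : Type} [CommRing R] {M : Meas K R} {u : Rˣ}
    {D : Set (ℤ × ℤ)} (X : Sys T) (β : Fin T → Fin B) (a : Fin B → ℕ) (ha : ∀ b, 0 < a b)
    (hX : Rt u M (fun t => a (β t)) D X) : Rt u M a D (XM X β) := by
  intro π _ V hV hG
  rw [gfM_eq X β M _ hV hG a ha]
  exact hX π _ (constr_VM X β hV) (gd_VM X β V)

theorem mix_rt {K : Type} [Field K] (S : MSpace) {R : Type} [CommRing R] {u : Rˣ}
    {M : Meas K R} (hu : M.L = (u : R)) (p : Fin T → ℕ) (β : Fin T → Fin B) (a : Fin B → ℕ)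
    (ha : ∀ b, 0 < a b) :
    Rt u M a (Dset S.codim p (fun t => a (β t)) 0) (mixSys S p β) := by
  have h1 := rt_blk (topSys S p) β a ha (top_rt S hu p (fun t => a (β t)) fun t => ha _)
  refine rt_change (Xs := mixSys S p β) (Ys := XM (topSys S p) β) hu (Equiv.refl _) ?_ h1
  intro A _ x b
  unfold fI
  congr 1
  ext y
  constructor
  · rintro ⟨⟨b', J⟩, hb, rfl⟩
    have hb' : b' = b := hb
    subst hb'
    refine ⟨⟨b', ⟨fun t => ⟨t.1, J t⟩, fun t => rfl⟩⟩, rfl, ?_⟩
    change ev x (∏ t, minor S (p t.1) (J t)) = ev x (∏ t, S.minorsZ (p t.1) (J t))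
    congr 1
    exact Finset.prod_congr rfl fun t _ => minor_eq S (p t.1) (J t)
  · rintro ⟨⟨b', c⟩, hb, rfl⟩
    have hb' : b' = b := hb
    subst hb'
    have h2 : ∀ t : {t // β t = b'}, ∃ j : S.Idx (p t.1),
        (topSys S p).G (c.1 t) = minor S (p t.1) j := by
      intro t
      have h3 : ∀ (l : Σ t, S.Idx (p t)) (t : Fin T), l.1 = t →
          ∃ j : S.Idx (p t), S.minorsZ (p l.1) l.2 = minor S (p t) j := by
        rintro ⟨t', j⟩ t rfl
        exact ⟨j, (minor_eq S _ _).symm⟩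
      exact h3 (c.1 t) t.1 (c.2 t)
    choose j hj using h2
    refine ⟨⟨b', j⟩, rfl, ?_⟩
    change ev x (∏ t, (topSys S p).G (c.1 t)) = ev x (∏ t, minor S (p t.1) (j t))
    congr 1
    exact Finset.prod_congr rfl fun t _ => hj t

theorem ratU_mono' {R : Type} [CommRing R] (u : Rˣ) {D D' : Set (ℤ × ℤ)} (h : D ⊆ D') :
    ratU u D ≤ ratU u D' := by
  refine Algebra.adjoin_mono ?_
  rintro g (hg | ⟨q, hq, rfl⟩)
  · exact Or.inl hg
  · exact Or.inr ⟨q, h hq, rfl⟩

theorem rk_of_adm (S : MSpace) (p : Fin T → ℕ) (hp : Adm S p) {d : ℕ}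
    (hd : ∃ t, 0 < p t - d) : d < S.rk := by
  obtain ⟨t, ht⟩ := hd
  cases S with
  | gen m n =>
    have hp' : ∀ t, p t ≤ m ∧ p t ≤ n := hp
    change d < min m n
    have := hp' t
    omega
  | sym n =>
    have hp' : (∀ t, p t ≤ n) ∧ ((∃ t, p t = n) → n ≤ 1 ∨ ∃ t, p t + 1 = n) := hp
    change d < n
    have := hp'.1 t
    omega
  | skew n =>
    have hp' : ∀ t, 2 * p t ≤ n := hp
    change d < n / 2
    have := hp' t
    omega

/-- **Rationality.** -/
theorem mix_memU (K : Type) [Field K] [CharZero K] (S : MSpace) (p : Fin T → ℕ)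
    (β : Fin T → Fin B) (a : Fin B → ℕ) (hp : Adm S p) (ha : ∀ b, 0 < a b)
    {W : Set (Pt K ((Σ b, ((t : {t // β t = b}) → S.Idx (p t.1))) ⊕ S.Var))} (hW : Constr W)
    {E : Set (AlgebraicClosure K)} (hE : GoodE E) :
    zetaM (map (Int.castRingHom K) (mixForm S p β a)) W E ∈
      ratU (Lu K) (mixPairs S p β a : Set (ℤ × ℤ)) := by
  classical
  obtain ⟨M, hL, hM⟩ := exists_meas K
  have hsub : Dset S.codim p (fun t => a (β t)) 0 ⊆ (mixPairs S p β a : Set (ℤ × ℤ)) := by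
    rintro q ⟨d, _, hd, rfl⟩
    rw [Finset.mem_coe, mixPairs, Finset.mem_union]
    left
    rw [detPairs, Finset.mem_image]
    refine ⟨d, Finset.mem_filter.2 ⟨Finset.mem_range.2 ?_, hd⟩, rfl⟩
    refine rk_of_adm S p hp ?_
    obtain ⟨t, _, ht⟩ := Finset.exists_ne_zero_of_sum_ne_zero hd.ne'
    exact ⟨t, Nat.pos_of_ne_zero (right_ne_zero_of_mul ht)⟩
  have h0 := zetaS_mem (X := mixSys S p β) (a := a) hL ha
    (D := (mixPairs S p β a : Set (ℤ × ℤ)))
    (fun π _ V hV hG => ratU_mono' (Lu K) hsub (mix_rt S hL p β a ha π V hV hG))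
    (fun t => by
      rw [Finset.mem_coe, mixPairs, Finset.mem_union]
      exact Or.inr (Finset.mem_image.2 ⟨t, Finset.mem_univ t, rfl⟩)) (W := W) hW hE
  have h2 : zetaM (map (Int.castRingHom K) (mixForm S p β a)) W E =
      zetaS M (((Lu K)⁻¹ : (MK K)ˣ) : MK K)
        (map (Int.castRingHom K) (fX (mixSys S p β) a)) W E := by
    rw [fX_mix]
    unfold zetaM zetaS
    congr 1
    funext d
    rw [hM, inv_pow_eq, Nat.mul_comm]
  rw [h2]
  exact h0

end Pool.Agent.T2h14.DA
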