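import Pool.Agent.TH192.DT.Types

set_option autoImplicit false

/-! # The admissible sizes -/

namespace Pool.Agent.T2h14.DA

open Pool.Agent.TH192.DT

/-- The sizes `p t` (`2 (p t)`) of the minors (Pfaffians) are at most the size of the matrix. If the
determinant of the symmetric `n × n` matrix is one of the minors, `n ≥ 2`, then the minors of size
`n - 1` occur too. -/
def Adm (S : MSpace) {τ : Type} (p : τ → ℕ) : Prop :=
  match S with
  | .gen m n => ∀ t, p t ≤ m ∧ p t ≤ n
  | .sym n => (∀ t, p t ≤ n) ∧ ((∃ t, p t = n) → n ≤ 1 ∨ ∃ t, p t + 1 = n)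
  | .skew n => ∀ t, 2 * p t ≤ n

end Pool.Agent.T2h14.DA
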