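import Pool.Agent.TH192.DT.Symm
import Pool.Agent.TH192.DT.Generic

set_option autoImplicit false
set_option linter.unusedSectionVars false
set_option linter.unusedVariables false

/-! # The divisor over the matrices of rank at most `d`, for the ideals of minors of size at most
`d + 1` -/

namespace Pool.Agent.T2h14.DA

open MvPowerSeries Pool.Agent.W574.SM Pool.Agent.TH192.DT

/-- the data of a generic or symmetric matrix, with one distinguished place -/
structure G1 (A T1 T2 σ : Type) where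
  ix : A ⊕ T1 → A ⊕ T2 → σ
  surj : ∀ t, ∃ x y, t = ix x y
  exc : ∀ r c x y, ix (Sum.inr r) (Sum.inr c) = ix x y →
    (∃ r', x = Sum.inr r') ∧ (∃ c', y = Sum.inr c')
  r0 : T1
  c0 : T2
  dg : ∀ x y, ix (Sum.inr r0) (Sum.inr c0) = ix x y → x = Sum.inr r0 ∧ y = Sum.inr c0

namespace G1

variable {A T1 T2 σ : Type} [Fintype A] [DecidableEq A] [Fintype T1] [DecidableEq T1]
  [Fintype T2] [DecidableEq T2] [Fintype σ] [DecidableEq σ] (G : G1 A T1 T2 σ)

/-- the matrix of variables with the base point -/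
noncomputable def D (lam : ℂ) (hlam : lam ≠ 0) : Mt A T1 T2 σ where
  ix := G.ix
  sg := fun _ _ => 1
  sg_sq := fun _ _ _ => one_mul 1
  surj := fun t => by
    obtain ⟨x, y, h⟩ := G.surj t
    exact ⟨x, y, one_ne_zero, h⟩
  exc := fun r c x y _ _ h => G.exc r c x y h
  A0 := lam • 1
  hA0 := by
    rw [Matrix.det_smul, Matrix.det_one, mul_one]
    exact pow_ne_zero _ hlam
  Y0 := Matrix.of fun r c => if r = G.r0 ∧ c = G.c0 then 1 else 0
  r0 := G.r0
  c0 := G.c0
  sg0 := one_ne_zero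
  Y0z := fun r c _ h => by
    obtain ⟨h1, h2⟩ := G.dg _ _ h.symm
    rw [Matrix.of_apply, if_pos ⟨Sum.inr_injective h1, Sum.inr_injective h2⟩]

variable (lam : ℂ) (hlam : lam ≠ 0)

theorem mY_z : (G.D lam hlam).mY G.r0 G.c0 = 1 := by
  rw [Mt.mY, Matrix.of_apply, if_pos (show (G.D lam hlam).ix (Sum.inr G.r0) (Sum.inr G.c0) =
    (G.D lam hlam).z from rfl), add_zero]
  change MvPowerSeries.C (if G.r0 = G.r0 ∧ G.c0 = G.c0 then (1 : ℂ) else 0) = 1
  rw [if_pos ⟨rfl, rfl⟩, map_one]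

theorem mY_ne (r : T1) (c : T2) (h : G.ix (Sum.inr r) (Sum.inr c) ≠ (G.D lam hlam).z) :
    (G.D lam hlam).mY r c = X (G.ix (Sum.inr r) (Sum.inr c)) := by
  rw [Mt.mY, Matrix.of_apply, if_neg (show ¬ (G.D lam hlam).ix (Sum.inr r) (Sum.inr c) =
    (G.D lam hlam).z from h)]
  have h1 : (G.D lam hlam).Y0 r c = 0 := by
    change (if r = G.r0 ∧ c = G.c0 then (1 : ℂ) else 0) = 0
    rw [if_neg]
    rintro ⟨rfl, rfl⟩
    exact h rfl
  rw [h1, map_zero, zero_add, Mt.v]
  change MvPowerSeries.C (1 : ℂ) * _ = _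
  rw [map_one, one_mul]
  rfl

/-- the coordinates of the base point, divided by `lam` -/
noncomputable def dl (t : σ) : ℂ :=
  Matrix.fromBlocks (1 : Matrix A A ℂ) 0 0 (0 : Matrix T1 T2 ℂ)
    (G.surj t).choose (G.surj t).choose_spec.choose

theorem cc_mX (x : A ⊕ T1) (y : A ⊕ T2) :
    constantCoeff ((G.D lam hlam).mX x y)
      = lam * Matrix.fromBlocks (1 : Matrix A A ℂ) 0 0 (0 : Matrix T1 T2 ℂ) x y := by
  have hv : ∀ x y, constantCoeff ((G.D lam hlam).v x y) = 0 := by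
    intro x y
    rw [Mt.v, map_mul, constantCoeff_X, mul_zero]
  rcases x with a | r <;> rcases y with b | c
  · have h := congrFun (congrFun (G.D lam hlam).cc_mA a) b
    rw [RingHom.mapMatrix_apply, Matrix.map_apply] at h
    change constantCoeff ((G.D lam hlam).mA a b) = _
    rw [h]
    rfl
  · rw [Matrix.fromBlocks_apply₁₂, Matrix.zero_apply, mul_zero]
    exact hv _ _
  · rw [Matrix.fromBlocks_apply₂₁, Matrix.zero_apply, mul_zero]
    exact hv _ _
  · rw [Matrix.fromBlocks_apply₂₂, Matrix.zero_apply, mul_zero]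
    change constantCoeff (((G.D lam hlam).mC * (G.D lam hlam).mA⁻¹ * (G.D lam hlam).mB) r c +
      X (G.D lam hlam).z * (G.D lam hlam).mY r c) = 0
    rw [map_add, map_mul, constantCoeff_X, zero_mul, add_zero, Matrix.mul_apply, map_sum]
    refine Finset.sum_eq_zero fun j _ => ?_
    rw [map_mul]
    have h1 : constantCoeff ((G.D lam hlam).mB j c) = 0 := hv _ _
    rw [h1, mul_zero]

variable {lam hlam} in
theorem cc_xi {ξ : σ → MvPowerSeries σ ℂ} (hξ : (G.D lam hlam).IsChart ξ) (t : σ) :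
    constantCoeff (ξ t) = lam * G.dl t := by
  have h1 := (G.surj t).choose_spec.choose_spec
  have h2 := hξ (G.surj t).choose (G.surj t).choose_spec.choose
  have h3 : (G.D lam hlam).ix (G.surj t).choose (G.surj t).choose_spec.choose = t := h1.symm
  rw [h3] at h2
  have h4 : ((G.D lam hlam).sg (G.surj t).choose (G.surj t).choose_spec.choose) = 1 := rfl
  rw [h4, map_one, one_mul] at h2
  rw [← h2, G.cc_mX, dl]

variable {m n : ℕ} (e1 : A ⊕ T1 ≃ Fin m) (e2 : A ⊕ T2 ≃ Fin n)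
  (M : Matrix (Fin m) (Fin n) (MvPolynomial σ ℂ))
  (hM : ∀ x y, M (e1 x) (e2 y) = MvPolynomial.X (G.ix x y))

variable {ξ : σ → MvPowerSeries σ ℂ} (hξ : (G.D lam hlam).IsChart ξ)

include hM hξ

theorem aeval_sub {p : ℕ} (r : Fin p → A ⊕ T1) (c : Fin p → A ⊕ T2) :
    MvPolynomial.aeval ξ (M.submatrix (fun i => e1 (r i)) (fun i => e2 (c i))).det =
      ((G.D lam hlam).mX.submatrix r c).det := by
  rw [← Mt.aeval_det _ hξ]
  congr 2
  ext1 i j
  rw [Matrix.submatrix_apply, Matrix.submatrix_apply, hM, Mt.mP, Matrix.of_apply]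
  change _ = MvPolynomial.C (1 : ℂ) * _
  rw [map_one, one_mul]
  rfl

theorem special (eP : A ⊕ Unit ≃ Fin (Fintype.card A + 1)) (r : T1) (c : T2) :
    MvPolynomial.aeval ξ (M.submatrix (fun i => e1 (Sum.map id (fun _ => r) (eP.symm i)))
      (fun i => e2 (Sum.map id (fun _ => c) (eP.symm i)))).det =
      X (G.D lam hlam).z ^ 1 * ((G.D lam hlam).mA.det * (G.D lam hlam).mY r c) := by
  have h1 := G.aeval_sub lam hlam e1 e2 M hM hξ (fun i => Sum.map id (fun _ => r) (eP.symm i))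
    (fun i => Sum.map id (fun _ => c) (eP.symm i))
  have h2 : (((G.D lam hlam).mY).submatrix (fun _ : Unit => r) (fun _ : Unit => c)).det =
      (G.D lam hlam).mY r c := Matrix.det_unique _
  rw [h1, (G.D lam hlam).special_minor eP (fun _ => r) (fun _ => c), Fintype.card_unit, h2]

theorem dvd (q : ℕ) (rc : (Fin q ↪o Fin m) × (Fin q ↪o Fin n)) :
    X (G.D lam hlam).z ^ (q - Fintype.card A) ∣ MvPolynomial.aeval ξ (minorsOf M q rc) := by
  rcases Nat.lt_or_ge q (Fintype.card A) with h | h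
  · rw [Nat.sub_eq_zero_of_le h.le, pow_zero]
    exact one_dvd _
  · have h1 := G.aeval_sub lam hlam e1 e2 M hM hξ (fun i => e1.symm (rc.1 i))
      (fun i => e2.symm (rc.2 i))
    simp only [Equiv.apply_symm_apply] at h1
    have h2 : minorsOf M q rc = (M.submatrix (fun i => rc.1 i) (fun i => rc.2 i)).det := rfl
    rw [h2, h1]
    exact Mt.dvd_minor _ _ (by rw [Fintype.card_fin]; omega) _ _

theorem hasOrd (q : ℕ) (hq : q ≤ Fintype.card A + 1) :
    HasOrd (G.D lam hlam).z ξ (q - Fintype.card A) (minorsOf M q) := by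
  refine ⟨G.dvd lam hlam e1 e2 M hM hξ q, ?_⟩
  rcases Nat.lt_or_ge (Fintype.card A) q with h | h
  · obtain rfl : q = Fintype.card A + 1 := by omega
    have eP : A ⊕ Unit ≃ Fin (Fintype.card A + 1) :=
      Fintype.equivOfCardEq (by rw [Fintype.card_sum, Fintype.card_unit, Fintype.card_fin])
    refine ⟨(M.submatrix (fun i => e1 (Sum.map id (fun _ => G.r0) (eP.symm i)))
      (fun i => e2 (Sum.map id (fun _ => G.c0) (eP.symm i)))).det, det_mem_span M _ _,
      (G.D lam hlam).mA.det * (G.D lam hlam).mY G.r0 G.c0, ?_, ?_⟩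
    · rw [G.mY_z, mul_one, Mt.cc_detA]
      exact (G.D lam hlam).hA0
    · rw [Nat.add_sub_cancel_left]
      exact G.special lam hlam e1 e2 M hM hξ eP G.r0 G.c0
  · obtain ⟨r⟩ : Nonempty (Fin q ↪ A) := by
      rw [Function.Embedding.nonempty_iff_card_le, Fintype.card_fin]
      exact h
    refine ⟨_, det_mem_span M (fun i => e1 (Sum.inl (r i))) (fun i => e2 (Sum.inl (r i))),
      ((G.D lam hlam).mX.submatrix (fun i => Sum.inl (r i))
        (fun i => Sum.inl (r i))).det, ?_, ?_⟩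
    · rw [(G.D lam hlam).minor_A r r]
      have h1 : ((G.D lam hlam).A0.submatrix r r) = lam • 1 := by
        change (lam • (1 : Matrix A A ℂ)).submatrix r r = lam • 1
        rw [Matrix.submatrix_smul, Pi.smul_apply, Pi.smul_apply,
          Matrix.submatrix_one _ r.injective]
      rw [h1, Matrix.det_smul, Matrix.det_one, mul_one]
      exact pow_ne_zero _ hlam
    · rw [Nat.sub_eq_zero_of_le h, pow_zero, one_mul]
      exact G.aeval_sub lam hlam e1 e2 M hM hξ _ _

theorem gives (t : σ) (ht : t ≠ (G.D lam hlam).z) (hexc : (G.D lam hlam).IsExc t) :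
    Gives (G.D lam hlam).z ξ (Fintype.card A + 1 - Fintype.card A)
      (minorsOf M (Fintype.card A + 1)) t := by
  obtain ⟨r, c, _, htrc⟩ := id hexc
  change t = G.ix (Sum.inr r) (Sum.inr c) at htrc
  have eP : A ⊕ Unit ≃ Fin (Fintype.card A + 1) :=
    Fintype.equivOfCardEq (by rw [Fintype.card_sum, Fintype.card_unit, Fintype.card_fin])
  refine ⟨(M.submatrix (fun i => e1 (Sum.map id (fun _ => r) (eP.symm i)))
      (fun i => e2 (Sum.map id (fun _ => c) (eP.symm i)))).det, det_mem_span M _ _,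
      (G.D lam hlam).mA.det * (G.D lam hlam).mY r c, ?_, ?_⟩
  · rw [G.mY_ne lam hlam r c (by rw [← htrc]; exact ht), ← htrc]
    refine isCoord_unit_mul ?_ ⟨constantCoeff_X t, ?_, ?_⟩
    · rw [Mt.cc_detA]
      exact (G.D lam hlam).hA0
    · classical
      rw [coeff_X, if_pos rfl]
      exact one_ne_zero
    · intro l _ hl
      classical
      rw [coeff_X, if_neg]
      intro h6
      exact hl (Finsupp.single_left_injective one_ne_zero h6)
  · rw [Nat.add_sub_cancel_left]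
    exact G.special lam hlam e1 e2 M hM hξ eP r c

omit hξ in
/-- **The roots.** -/
theorem roots {τ : Type} [Fintype τ] [DecidableEq τ] (p : τ → ℕ)
    (hp : ∀ t, p t ≤ Fintype.card A + 1) (b : Polynomial ℂ) (H : MvPolynomial σ ℂ)
    (hb : Pool.Agent.W574.LM.IsLocEq H (prodFam fun t => minorsOf M (p t)) b)
    (hH : MvPolynomial.constantCoeff H ≠ 0)
    (hchart : ∀ (lam : ℂ) (hlam : lam ≠ 0), ∃ ξ, (G.D lam hlam).IsChart ξ)
    (l : ℕ) (hl : l < ∑ t, (p t - Fintype.card A)) (ν : ℕ)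
    (hν : Nat.card {t // ∃ r c, t = G.ix (Sum.inr r) (Sum.inr c)} = ν) :
    b.eval (-((ν : ℂ) + l) / (∑ t, (p t - Fintype.card A) : ℕ)) = 0 := by
  classical
  obtain ⟨t0, _, ht0⟩ := Finset.exists_ne_zero_of_sum_ne_zero
    (by omega : ∑ t, (p t - Fintype.card A) ≠ 0)
  have hpt0 : p t0 = Fintype.card A + 1 := by
    have := hp t0
    omega
  obtain ⟨lam, hlam, hlH⟩ := exists_scale H hH G.dl
  obtain ⟨ξ, hξ⟩ := hchart lam hlam
  have hord : ∀ q, q ≤ Fintype.card A + 1 →
      HasOrd (G.D lam hlam).z ξ (q - Fintype.card A) (minorsOf M q) := fun q hq =>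
    G.hasOrd lam hlam e1 e2 M hM hξ q hq
  obtain ⟨_, F, _, U, hU, hFU⟩ := hord (Fintype.card A + 1) le_rfl
  rw [Nat.add_sub_cancel_left] at hFU
  refine (G.D lam hlam).main hξ _ b H hb ?_ _ l hl
    (hasOrd_prod _ ξ _ _ fun t => hord (p t) (hp t)) ?_ F U hU hFU ν ?_
  · rw [cc_aeval]
    have h2 : (fun t => constantCoeff (ξ t)) = fun t => lam * G.dl t := by
      funext t
      exact G.cc_xi hξ t
    rw [h2]
    exact hlH
  · intro t ht hexc
    refine gives_prod _ ξ _ _ (fun t => hord (p t) (hp t)) t0 t ?_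
    have h3 := G.gives lam hlam e1 e2 M hM hξ t ht hexc
    rw [hpt0]
    exact h3
  · rw [← hν, ← Nat.card_eq_fintype_card]
    refine Nat.card_congr (Equiv.subtypeEquivRight fun t => ?_)
    constructor
    · rintro ⟨r, c, _, h⟩
      exact ⟨r, c, h⟩
    · rintro ⟨r, c, h⟩
      exact ⟨r, c, one_ne_zero, h⟩

end G1

/-- the data of the generic matrix -/
def gG1 {m n d r k : ℕ} (e1 : Fin d ⊕ Fin (r + 1) ≃ Fin m) (e2 : Fin d ⊕ Fin (k + 1) ≃ Fin n) :
    G1 (Fin d) (Fin (r + 1)) (Fin (k + 1)) (Fin m × Fin n) where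
  ix := fun x y => (e1 x, e2 y)
  surj := fun t => ⟨e1.symm t.1, e2.symm t.2, by simp⟩
  exc := fun r c x y h => by
    rw [Prod.mk.injEq, e1.injective.eq_iff, e2.injective.eq_iff] at h
    exact ⟨⟨r, h.1.symm⟩, ⟨c, h.2.symm⟩⟩
  r0 := 0
  c0 := 0
  dg := fun x y h => by
    rw [Prod.mk.injEq, e1.injective.eq_iff, e2.injective.eq_iff] at h
    exact ⟨h.1.symm, h.2.symm⟩

theorem generic_top (m n d l : ℕ) {τ : Type} [Fintype τ] [DecidableEq τ] (p : τ → ℕ)
    (hm : d < m) (hn : d < n) (hp : ∀ t, p t ≤ d + 1) (b : Polynomial ℂ)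
    (H : MvPolynomial (Fin m × Fin n) ℂ)
    (hb : Pool.Agent.W574.LM.IsLocEq H (prodFam fun t => minorsOf (genericMatrix m n) (p t)) b)
    (hH : MvPolynomial.constantCoeff H ≠ 0) (hl : l < ∑ t, (p t - d)) :
    b.eval (-(((m : ℂ) - d) * (n - d) + l) / (∑ t, (p t - d) : ℕ)) = 0 := by
  classical
  obtain ⟨r, hr⟩ : ∃ r, m = d + (r + 1) := ⟨m - d - 1, by omega⟩
  obtain ⟨k, hk⟩ : ∃ k, n = d + (k + 1) := ⟨n - d - 1, by omega⟩
  have e1 : Fin d ⊕ Fin (r + 1) ≃ Fin m := Fintype.equivOfCardEq (by simp [hr])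
  have e2 : Fin d ⊕ Fin (k + 1) ≃ Fin n := Fintype.equivOfCardEq (by simp [hk])
  have hmain := (gG1 e1 e2).roots e1 e2 (genericMatrix m n) (fun x y => rfl) p
    (fun t => by rw [Fintype.card_fin]; exact hp t) b H hb hH
    (fun lam hlam => ⟨fun t => ((gG1 e1 e2).D lam hlam).mX (e1.symm t.1) (e2.symm t.2), ?_⟩) l
    (by rw [Fintype.card_fin]; exact hl) ((m - d) * (n - d)) ?_
  · rw [Fintype.card_fin] at hmain
    have h3 : (((m - d) * (n - d) : ℕ) : ℂ) = ((m : ℂ) - d) * (n - d) := by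
      rw [Nat.cast_mul, Nat.cast_sub (by omega), Nat.cast_sub (by omega)]
    rw [← h3]
    exact hmain
  · intro x y
    change _ = MvPowerSeries.C (1 : ℂ) * ((gG1 e1 e2).D lam hlam).mX (e1.symm (e1 x))
      (e2.symm (e2 y))
    rw [map_one, one_mul, Equiv.symm_apply_apply, Equiv.symm_apply_apply]
  · have h4 : Nat.card {t // ∃ r c, t = (gG1 e1 e2).ix (Sum.inr r) (Sum.inr c)}
        = Nat.card (Fin (r + 1) × Fin (k + 1)) := by
      symm
      refine Nat.card_eq_of_bijective (fun q => ⟨((gG1 e1 e2).ix (Sum.inr q.1) (Sum.inr q.2)),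
        ⟨q.1, q.2, rfl⟩⟩) ⟨?_, ?_⟩
      · rintro ⟨a, b⟩ ⟨a', b'⟩ h
        rw [Subtype.mk.injEq] at h
        change (e1 (Sum.inr a), e2 (Sum.inr b)) = (e1 (Sum.inr a'), e2 (Sum.inr b')) at h
        rw [Prod.mk.injEq, e1.injective.eq_iff, e2.injective.eq_iff, Sum.inr.injEq,
          Sum.inr.injEq] at h
        exact Prod.ext h.1 h.2
      · rintro ⟨t, a, b, h⟩
        exact ⟨(a, b), Subtype.ext h.symm⟩
    rw [h4, Nat.card_prod, Nat.card_eq_fintype_card, Nat.card_eq_fintype_card, Fintype.card_fin,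
      Fintype.card_fin]
    congr 1 <;> omega

/-- the data of the symmetric matrix -/
def gS1 {n d r : ℕ} (e : Fin d ⊕ Fin (r + 1) ≃ Fin n) :
    G1 (Fin d) (Fin (r + 1)) (Fin (r + 1)) (Sym2 (Fin n)) where
  ix := fun x y => s(e x, e y)
  surj := fun t => by
    induction t using Sym2.ind with
    | _ i j => exact ⟨e.symm i, e.symm j, by simp⟩
  exc := fun r c x y h => by
    rw [Sym2.eq_iff, e.injective.eq_iff, e.injective.eq_iff, e.injective.eq_iff,
      e.injective.eq_iff] at h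
    rcases h with h | h
    · exact ⟨⟨r, h.1.symm⟩, ⟨c, h.2.symm⟩⟩
    · exact ⟨⟨c, h.2.symm⟩, ⟨r, h.1.symm⟩⟩
  r0 := 0
  c0 := 0
  dg := fun x y h => by
    rw [Sym2.eq_iff, e.injective.eq_iff, e.injective.eq_iff] at h
    rcases h with h | h
    · exact ⟨h.1.symm, h.2.symm⟩
    · exact ⟨h.2.symm, h.1.symm⟩

theorem gS1_symm {n d r : ℕ} (e : Fin d ⊕ Fin (r + 1) ≃ Fin n) (lam : ℂ) (hlam : lam ≠ 0) :
    (((gS1 e).D lam hlam).mX).transpose = ((gS1 e).D lam hlam).mX := by
  have hv : ∀ x y, ((gS1 e).D lam hlam).v x y = ((gS1 e).D lam hlam).v y x := by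
    intro x y
    change MvPowerSeries.C (1 : ℂ) * X s(e x, e y) = MvPowerSeries.C (1 : ℂ) * X s(e y, e x)
    rw [Sym2.eq_swap]
  have hA : (((gS1 e).D lam hlam).mA).transpose = ((gS1 e).D lam hlam).mA := by
    rw [Mt.mA, Matrix.transpose_add]
    congr 1
    · change (((lam • (1 : Matrix (Fin d) (Fin d) ℂ)).map MvPowerSeries.C)).transpose = _
      rw [← Matrix.transpose_map, Matrix.transpose_smul, Matrix.transpose_one]
      rfl
    · ext1 a b
      exact hv _ _
  have hB : (((gS1 e).D lam hlam).mB).transpose = ((gS1 e).D lam hlam).mC := by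
    ext1 a b
    exact hv _ _
  have hC : (((gS1 e).D lam hlam).mC).transpose = ((gS1 e).D lam hlam).mB := by
    ext1 a b
    exact hv _ _
  have hY : (((gS1 e).D lam hlam).mY).transpose = ((gS1 e).D lam hlam).mY := by
    ext1 r' c
    rw [Matrix.transpose_apply, Mt.mY, Matrix.of_apply, Matrix.of_apply, hv]
    have h1 : ((gS1 e).D lam hlam).ix (Sum.inr c) (Sum.inr r')
        = ((gS1 e).D lam hlam).ix (Sum.inr r') (Sum.inr c) := Sym2.eq_swap
    rw [h1]
    congr 2
    change (if c = 0 ∧ r' = 0 then (1 : ℂ) else 0) = if r' = 0 ∧ c = 0 then 1 else 0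
    simp only [and_comm]
  rw [Mt.mX, Matrix.fromBlocks_transpose, hA, hB, hC, Matrix.transpose_add,
    Matrix.transpose_smul, hY, Matrix.transpose_mul, Matrix.transpose_mul, hB, hC,
    Matrix.transpose_nonsing_inv, hA, Matrix.mul_assoc]

theorem symm_top (n d l : ℕ) {τ : Type} [Fintype τ] [DecidableEq τ] (p : τ → ℕ)
    (hn : d < n) (hp : ∀ t, p t ≤ d + 1) (b : Polynomial ℂ) (H : MvPolynomial (Sym2 (Fin n)) ℂ)
    (hb : Pool.Agent.W574.LM.IsLocEq H (prodFam fun t => minorsOf (symmetricMatrix n) (p t)) b)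
    (hH : MvPolynomial.constantCoeff H ≠ 0) (hl : l < ∑ t, (p t - d)) :
    b.eval (-(((n : ℂ) - d) * (n - d + 1) / 2 + l) / (∑ t, (p t - d) : ℕ)) = 0 := by
  classical
  obtain ⟨r, hr⟩ : ∃ r, n = d + (r + 1) := ⟨n - d - 1, by omega⟩
  have e : Fin d ⊕ Fin (r + 1) ≃ Fin n := Fintype.equivOfCardEq (by simp [hr])
  have hmain := (gS1 e).roots e e (symmetricMatrix n) (fun x y => rfl) p
    (fun t => by rw [Fintype.card_fin]; exact hp t) b H hb hH
    (fun lam hlam => ⟨Sym2.lift ⟨fun i j => ((gS1 e).D lam hlam).mX (e.symm i) (e.symm j), ?_⟩,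
      ?_⟩) l (by rw [Fintype.card_fin]; exact hl) ((n - d + 1).choose 2) ?_
  · rw [Fintype.card_fin] at hmain
    have h3 : (((n - d + 1).choose 2 : ℕ) : ℂ) = ((n : ℂ) - d) * (n - d + 1) / 2 := by
      rw [Nat.cast_choose_two, Nat.cast_add, Nat.cast_sub (by omega), Nat.cast_one]
      ring
    rw [← h3]
    exact hmain
  · intro i j
    exact (congrFun (congrFun (gS1_symm e lam hlam) (e.symm j)) (e.symm i))
  · intro x y
    change _ = MvPowerSeries.C (1 : ℂ) * ((gS1 e).D lam hlam).mX (e.symm (e x)) (e.symm (e y))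
    rw [map_one, one_mul, Equiv.symm_apply_apply, Equiv.symm_apply_apply]
  · have h4 : Nat.card {t // ∃ r c, t = (gS1 e).ix (Sum.inr r) (Sum.inr c)}
        = Nat.card (Sym2 (Fin (r + 1))) := by
      symm
      refine Nat.card_eq_of_bijective (fun q => ⟨Sym2.map (fun r => e (Sum.inr r)) q, ?_⟩)
        ⟨?_, ?_⟩
      · induction q using Sym2.ind with
        | _ x y => exact ⟨x, y, rfl⟩
      · intro q q' h
        rw [Subtype.mk.injEq] at h
        exact Sym2.map.injective (e.injective.comp Sum.inr_injective) h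
      · rintro ⟨t, a, b, h⟩
        exact ⟨s(a, b), Subtype.ext h.symm⟩
    rw [h4, Nat.card_eq_fintype_card, Sym2.card, Fintype.card_fin]
    congr 1
    omega

end Pool.Agent.T2h14.DA
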