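import Pool.Agent.TH192.DT.Pfaff

set_option autoImplicit false
set_option linter.unusedSectionVars false
set_option linter.unusedVariables false

/-! # The divisor over the skew symmetric matrices of rank at most `2 d`, for the ideals of
Pfaffians of size at most `2 (d + 1)` -/

namespace Pool.Agent.T2h14.DA

open MvPowerSeries Pool.Agent.W574.SM Pool.Agent.TH192.DT

/-- the data of a generic skew symmetric matrix -/
structure Sq (A T σ : Type) where
  ix : A ⊕ T → A ⊕ T → σ
  sg : A ⊕ T → A ⊕ T → ℂ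
  sg_sq : ∀ x y, x ≠ y → sg x y * sg x y = 1
  sg_anti : ∀ x y, sg y x = - sg x y
  ix_symm : ∀ x y, ix x y = ix y x
  ix_inj : ∀ x y x' y', x ≠ y → x' ≠ y' → ix x y = ix x' y' →
    (x = x' ∧ y = y') ∨ (x = y' ∧ y = x')
  surj : ∀ t, ∃ x y, x ≠ y ∧ t = ix x y

/-- the rows of the exceptional block -/
abbrev Tq (R : Type) := (Fin 1 × Bool) ⊕ R

namespace Sq

variable {R σ : Type} [Fintype R] [DecidableEq R] [Fintype σ] [DecidableEq σ] {d : ℕ}
  (S : Sq (Fin d × Bool) (Tq R) σ)

theorem sg_self (x : (Fin d × Bool) ⊕ Tq R) : S.sg x x = 0 := by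
  have h := S.sg_anti x x
  have h2 : (2 : ℂ) * S.sg x x = 0 := by linear_combination h
  exact (mul_eq_zero.1 h2).resolve_left two_ne_zero

theorem ne_of_sg {x y : (Fin d × Bool) ⊕ Tq R} (h : S.sg x y ≠ 0) : x ≠ y := by
  rintro rfl
  exact h (S.sg_self x)

theorem sg_ne {x y : (Fin d × Bool) ⊕ Tq R} (h : x ≠ y) : S.sg x y ≠ 0 := by
  intro h1
  have h2 := S.sg_sq x y h
  rw [h1, mul_zero] at h2
  exact zero_ne_one h2

/-- the base point of the block `A`, for `lam = 1` -/
noncomputable def A1 : Matrix (Fin d × Bool) (Fin d × Bool) ℂ :=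
  jm fun a b => S.sg (Sum.inl a) (Sum.inl b)

/-- the base point of the exceptional block -/
noncomputable def Y1 : Matrix (Tq R) (Tq R) ℂ :=
  Matrix.fromBlocks (jm fun a b => S.sg (Sum.inr (Sum.inl a)) (Sum.inr (Sum.inl b))) 0 0 0

theorem det_A1 : S.A1.det * S.A1.det = 1 :=
  det_jm _ fun x => S.sg_sq _ _ fun h => fl_ne x (Sum.inl_injective h).symm

/-- the matrix of variables with the base point -/
noncomputable def D (lam : ℂ) (hlam : lam ≠ 0) : Mt (Fin d × Bool) (Tq R) (Tq R) σ where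
  ix := S.ix
  sg := S.sg
  sg_sq := fun x y h => S.sg_sq x y (S.ne_of_sg h)
  surj := fun t => by
    obtain ⟨x, y, h, h1⟩ := S.surj t
    exact ⟨x, y, S.sg_ne h, h1⟩
  exc := fun r c x y h1 h2 h => by
    rcases S.ix_inj _ _ _ _ (S.ne_of_sg h1) (S.ne_of_sg h2) h with h | h
    · exact ⟨⟨r, h.1.symm⟩, ⟨c, h.2.symm⟩⟩
    · exact ⟨⟨c, h.2.symm⟩, ⟨r, h.1.symm⟩⟩
  A0 := lam • S.A1
  hA0 := by
    rw [Matrix.det_smul]
    refine mul_ne_zero (pow_ne_zero _ hlam) ?_
    intro h
    have h1 := S.det_A1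
    rw [h, mul_zero] at h1
    exact zero_ne_one h1
  Y0 := S.Y1
  r0 := Sum.inl (0, false)
  c0 := Sum.inl (0, true)
  sg0 := S.sg_ne (by simp)
  Y0z := fun r c h1 h => by
    rcases S.ix_inj _ _ _ _ (S.ne_of_sg h1) (by simp) h with h | h
    · rw [Sum.inr_injective h.1, Sum.inr_injective h.2, Y1, Matrix.fromBlocks_apply₁₁, jm,
        Matrix.of_apply]
      exact if_pos (by simp [fl])
    · rw [Sum.inr_injective h.1, Sum.inr_injective h.2, Y1, Matrix.fromBlocks_apply₁₁, jm,
        Matrix.of_apply]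
      exact if_pos (by simp [fl])

variable (lam : ℂ) (hlam : lam ≠ 0)

/-- the chart is skew symmetric -/
theorem skew : (S.D lam hlam).mX.transpose = - (S.D lam hlam).mX := by
  have hv : ∀ x y, (S.D lam hlam).v y x = - (S.D lam hlam).v x y := by
    intro x y
    change MvPowerSeries.C (S.sg y x) * X (S.ix y x) = - (MvPowerSeries.C (S.sg x y) * X (S.ix x y))
    rw [S.sg_anti, S.ix_symm, map_neg, neg_mul]
  have hjm : ∀ (Q : Type) [DecidableEq Q] (s : Q × Bool → Q × Bool → ℂ)
      (hs : ∀ x y, s y x = - s x y) (x y : Q × Bool), jm s y x = - jm s x y := by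
    intro Q _ s hs x y
    rw [jm, Matrix.of_apply, Matrix.of_apply]
    by_cases h : x = fl y
    · have h' : y = fl x := by rw [h, fl_fl]
      rw [if_pos h, if_pos h', hs]
    · have h' : ¬ y = fl x := fun h' => h (by rw [h', fl_fl])
      rw [if_neg h, if_neg h', neg_zero]
  have hA : (S.D lam hlam).mA.transpose = - (S.D lam hlam).mA := by
    ext1 a b
    rw [Matrix.transpose_apply, Matrix.neg_apply, Mt.mA, Matrix.add_apply, Matrix.add_apply,
      Matrix.of_apply, Matrix.of_apply, hv, neg_add]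
    congr 1
    rw [Matrix.map_apply, Matrix.map_apply, ← map_neg]
    congr 1
    change (lam • S.A1) b a = - (lam • S.A1) a b
    rw [Matrix.smul_apply, Matrix.smul_apply, A1, hjm _ _ (fun x y => S.sg_anti _ _), smul_neg]
  have hB : (S.D lam hlam).mB.transpose = - (S.D lam hlam).mC := by
    ext1 a b
    exact hv _ _
  have hC : (S.D lam hlam).mC.transpose = - (S.D lam hlam).mB := by
    ext1 a b
    exact hv _ _
  have hY : (S.D lam hlam).mY.transpose = - (S.D lam hlam).mY := by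
    ext1 r c
    rw [Matrix.transpose_apply, Matrix.neg_apply, Mt.mY, Matrix.of_apply, Matrix.of_apply, hv,
      neg_add]
    have h1 : (S.D lam hlam).ix (Sum.inr c) (Sum.inr r)
        = (S.D lam hlam).ix (Sum.inr r) (Sum.inr c) := S.ix_symm _ _
    rw [h1, ← map_neg]
    congr 1
    · congr 1
      change S.Y1 c r = - S.Y1 r c
      rcases r with r | r <;> rcases c with c | c
      · exact hjm (Fin 1) (fun a b => S.sg (Sum.inr (Sum.inl a)) (Sum.inr (Sum.inl b)))
          (fun x y => S.sg_anti _ _) r c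
      · rw [Y1, Matrix.fromBlocks_apply₂₁, Matrix.fromBlocks_apply₁₂, Matrix.zero_apply,
          Matrix.zero_apply, neg_zero]
      · rw [Y1, Matrix.fromBlocks_apply₂₁, Matrix.fromBlocks_apply₁₂, Matrix.zero_apply,
          Matrix.zero_apply, neg_zero]
      · rw [Y1, Matrix.fromBlocks_apply₂₂, Matrix.fromBlocks_apply₂₂, Matrix.zero_apply,
          Matrix.zero_apply, neg_zero]
    · split_ifs
      · rw [neg_zero]
      · rfl
  have hAi : (S.D lam hlam).mA⁻¹.transpose = - (S.D lam hlam).mA⁻¹ := by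
    rw [Matrix.transpose_nonsing_inv, hA]
    have h1 : (- (S.D lam hlam).mA) * (- (S.D lam hlam).mA⁻¹) = 1 := by
      rw [Matrix.neg_mul, Matrix.mul_neg, neg_neg, Matrix.mul_nonsing_inv _ (S.D lam hlam).mA_unit]
    exact Matrix.inv_eq_right_inv h1
  rw [Mt.mX, Matrix.fromBlocks_transpose, Matrix.fromBlocks_neg, hA, hB, hC, Matrix.transpose_add,
    Matrix.transpose_smul, hY, Matrix.transpose_mul, Matrix.transpose_mul, hB, hC, hAi,
    neg_add, smul_neg]
  congr 2
  rw [Matrix.neg_mul, Matrix.neg_mul, Matrix.mul_neg, neg_neg, Matrix.mul_assoc, Matrix.mul_neg,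
    Matrix.mul_neg]


theorem mY_self (r : Tq R) : (S.D lam hlam).mY r r = 0 := by
  rw [Mt.mY, Matrix.of_apply]
  have h1 : (S.D lam hlam).v (Sum.inr r) (Sum.inr r) = 0 := by
    rw [Mt.v]
    change MvPowerSeries.C (S.sg (Sum.inr r) (Sum.inr r)) * _ = 0
    rw [S.sg_self, map_zero, zero_mul]
  have h2 : (S.D lam hlam).Y0 r r = 0 := by
    change S.Y1 r r = 0
    rcases r with r | r
    · rw [Y1, Matrix.fromBlocks_apply₁₁, jm, Matrix.of_apply, if_neg (fl_ne r).symm]
    · rw [Y1, Matrix.fromBlocks_apply₂₂, Matrix.zero_apply]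
  rw [h1, h2, map_zero, zero_add, ite_self]

theorem mY_anti (r c : Tq R) : (S.D lam hlam).mY c r = - (S.D lam hlam).mY r c := by
  rw [Mt.mY, Matrix.of_apply, Matrix.of_apply]
  have hv : (S.D lam hlam).v (Sum.inr c) (Sum.inr r) =
      - (S.D lam hlam).v (Sum.inr r) (Sum.inr c) := by
    change MvPowerSeries.C (S.sg _ _) * X (S.ix _ _) = - (MvPowerSeries.C (S.sg _ _) * X (S.ix _ _))
    rw [S.sg_anti (Sum.inr r) (Sum.inr c), S.ix_symm (Sum.inr c) (Sum.inr r), map_neg, neg_mul]
  have h1 : (S.D lam hlam).ix (Sum.inr c) (Sum.inr r)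
      = (S.D lam hlam).ix (Sum.inr r) (Sum.inr c) := S.ix_symm _ _
  have h2 : (S.D lam hlam).Y0 c r = - (S.D lam hlam).Y0 r c := by
    change S.Y1 c r = - S.Y1 r c
    rcases r with r | r <;> rcases c with c | c
    · rw [Y1, Matrix.fromBlocks_apply₁₁, Matrix.fromBlocks_apply₁₁, jm, Matrix.of_apply,
        Matrix.of_apply]
      by_cases h : r = fl c
      · have h' : c = fl r := by rw [h, fl_fl]
        rw [if_pos h, if_pos h', S.sg_anti (Sum.inr (Sum.inl r))]
      · have h' : ¬ c = fl r := fun h' => h (by rw [h', fl_fl])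
        rw [if_neg h, if_neg h', neg_zero]
    · rw [Y1, Matrix.fromBlocks_apply₂₁, Matrix.fromBlocks_apply₁₂, Matrix.zero_apply,
        Matrix.zero_apply, neg_zero]
    · rw [Y1, Matrix.fromBlocks_apply₂₁, Matrix.fromBlocks_apply₁₂, Matrix.zero_apply,
        Matrix.zero_apply, neg_zero]
    · rw [Y1, Matrix.fromBlocks_apply₂₂, Matrix.fromBlocks_apply₂₂, Matrix.zero_apply,
        Matrix.zero_apply, neg_zero]
  rw [hv, h1, h2, map_neg]
  split_ifs
  · rw [add_zero, add_zero]
  · rw [neg_add]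

theorem det_pair (r c : Tq R) :
    (((S.D lam hlam).mY).submatrix ![r, c] ![r, c]).det = (S.D lam hlam).mY r c ^ 2 := by
  rw [Matrix.det_fin_two]
  simp only [Matrix.submatrix_apply, Matrix.cons_val_zero, Matrix.cons_val_one]
  rw [S.mY_self lam hlam r, S.mY_anti lam hlam r c]
  ring

theorem mY_z : (S.D lam hlam).mY (S.D lam hlam).r0 (S.D lam hlam).c0 ^ 2 = 1 := by
  have hne : (Sum.inr (Sum.inl ((0 : Fin 1), false)) : (Fin d × Bool) ⊕ Tq R) ≠
      Sum.inr (Sum.inl (0, true)) := by simp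
  have h0 : (S.D lam hlam).Y0 (S.D lam hlam).r0 (S.D lam hlam).c0 =
      S.sg (Sum.inr (Sum.inl (0, false))) (Sum.inr (Sum.inl (0, true))) := by
    change S.Y1 (Sum.inl (0, false)) (Sum.inl (0, true)) = _
    rw [Y1, Matrix.fromBlocks_apply₁₁, jm, Matrix.of_apply, if_pos (by simp [fl])]
  rw [Mt.mY, Matrix.of_apply, if_pos (show (S.D lam hlam).ix (Sum.inr (S.D lam hlam).r0)
    (Sum.inr (S.D lam hlam).c0) = (S.D lam hlam).z from rfl), add_zero, h0, ← map_pow, pow_two,
    S.sg_sq _ _ hne, map_one]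

theorem mY_ne (r c : Tq R) (hrc : r ≠ c)
    (h : S.ix (Sum.inr r) (Sum.inr c) ≠ (S.D lam hlam).z) :
    (S.D lam hlam).mY r c ^ 2 = X (S.ix (Sum.inr r) (Sum.inr c)) ^ 2 := by
  rw [Mt.mY, Matrix.of_apply, if_neg (show ¬ (S.D lam hlam).ix (Sum.inr r) (Sum.inr c) =
    (S.D lam hlam).z from h)]
  have h1 : (S.D lam hlam).Y0 r c = 0 := by
    change S.Y1 r c = 0
    rcases r with r | r <;> rcases c with c | c
    · rw [Y1, Matrix.fromBlocks_apply₁₁, jm, Matrix.of_apply, if_neg]
      intro hc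
      apply h
      obtain ⟨i, b⟩ := r
      rw [hc]
      have hi : i = 0 := Subsingleton.elim _ _
      subst hi
      cases b
      · rfl
      · exact S.ix_symm _ _
    · rw [Y1, Matrix.fromBlocks_apply₁₂, Matrix.zero_apply]
    · rw [Y1, Matrix.fromBlocks_apply₂₁, Matrix.zero_apply]
    · rw [Y1, Matrix.fromBlocks_apply₂₂, Matrix.zero_apply]
  rw [h1, map_zero, zero_add, Mt.v, mul_pow, ← map_pow, pow_two ((S.D lam hlam).sg _ _)]
  have h2 : (S.D lam hlam).sg (Sum.inr r) (Sum.inr c) * (S.D lam hlam).sg (Sum.inr r)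
      (Sum.inr c) = 1 := S.sg_sq _ _ fun h => hrc (Sum.inr_injective h)
  rw [h2, map_one, one_mul]
  rfl

/-- the skew symmetric matrix of variables -/
noncomputable def P : Matrix ((Fin d × Bool) ⊕ Tq R) ((Fin d × Bool) ⊕ Tq R)
    (MvPolynomial σ ℂ) :=
  Matrix.of fun x y => MvPolynomial.C (S.sg x y) * MvPolynomial.X (S.ix x y)

/-- The members of the family are the square roots of the principal minors of size `2 p`. -/
structure IsPf (p : ℕ) {ι : Type} (f : ι → MvPolynomial σ ℂ) : Prop where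
  sq : ∀ j, ∃ r : Fin (2 * p) → (Fin d × Bool) ⊕ Tq R, f j ^ 2 = (S.P.submatrix r r).det
  ex : ∀ r : Fin (2 * p) → (Fin d × Bool) ⊕ Tq R, Function.Injective r →
    ∃ j, f j ^ 2 = (S.P.submatrix r r).det

/-- the coordinates of the base point, divided by `lam` -/
noncomputable def dl (t : σ) : ℂ :=
  S.sg (S.surj t).choose (S.surj t).choose_spec.choose *
    Matrix.fromBlocks S.A1 0 0 (0 : Matrix (Tq R) (Tq R) ℂ)
      (S.surj t).choose (S.surj t).choose_spec.choose

theorem cc_mX (lam : ℂ) (hlam : lam ≠ 0) (x y : (Fin d × Bool) ⊕ Tq R) :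
    constantCoeff ((S.D lam hlam).mX x y)
      = lam * Matrix.fromBlocks S.A1 0 0 (0 : Matrix (Tq R) (Tq R) ℂ) x y := by
  have hv : ∀ x y, constantCoeff ((S.D lam hlam).v x y) = 0 := by
    intro x y
    rw [Mt.v, map_mul, constantCoeff_X, mul_zero]
  rcases x with a | r <;> rcases y with b | c
  · have h := congrFun (congrFun (S.D lam hlam).cc_mA a) b
    rw [RingHom.mapMatrix_apply, Matrix.map_apply] at h
    change constantCoeff ((S.D lam hlam).mA a b) = _
    rw [h]
    rfl
  · rw [Matrix.fromBlocks_apply₁₂, Matrix.zero_apply, mul_zero]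
    exact hv _ _
  · rw [Matrix.fromBlocks_apply₂₁, Matrix.zero_apply, mul_zero]
    exact hv _ _
  · rw [Matrix.fromBlocks_apply₂₂, Matrix.zero_apply, mul_zero]
    change constantCoeff (((S.D lam hlam).mC * (S.D lam hlam).mA⁻¹ * (S.D lam hlam).mB) r c +
      X (S.D lam hlam).z * (S.D lam hlam).mY r c) = 0
    rw [map_add, map_mul, constantCoeff_X, zero_mul, add_zero, Matrix.mul_apply, map_sum]
    refine Finset.sum_eq_zero fun j _ => ?_
    rw [map_mul]
    have h1 : constantCoeff ((S.D lam hlam).mB j c) = 0 := hv _ _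
    rw [h1, mul_zero]

theorem cc_xi {lam : ℂ} {hlam : lam ≠ 0} {ξ : σ → MvPowerSeries σ ℂ}
    (hξ : (S.D lam hlam).IsChart ξ) (t : σ) : constantCoeff (ξ t) = lam * S.dl t := by
  obtain ⟨h0, h1⟩ := (S.surj t).choose_spec.choose_spec
  have h2 := (S.D lam hlam).ξ_eq hξ (S.surj t).choose (S.surj t).choose_spec.choose (S.sg_ne h0)
  have h3 : (S.D lam hlam).ix (S.surj t).choose (S.surj t).choose_spec.choose = t := h1.symm
  rw [h3] at h2
  rw [h2, map_mul, constantCoeff_C, S.cc_mX, dl]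
  change S.sg _ _ * _ = _
  ring


variable {ξ : σ → MvPowerSeries σ ℂ}
  (hξ : (S.D lam hlam).IsChart ξ) {p : ℕ} {ι : Type} {f : ι → MvPolynomial σ ℂ}
  (hf : S.IsPf p f)

include hξ hf

theorem exists_special (hp : p = d + 1) (r c : Tq R) (hrc : r ≠ c) :
    ∃ j w, MvPolynomial.aeval ξ (f j) = X (S.D lam hlam).z ^ 1 * w ∧
      w ^ 2 = (S.D lam hlam).mA.det * (S.D lam hlam).mY r c ^ 2 := by
  have eP : (Fin d × Bool) ⊕ Fin 2 ≃ Fin (2 * p) :=
    Fintype.equivOfCardEq (by
      rw [Fintype.card_sum, Fintype.card_prod, Fintype.card_fin, Fintype.card_fin,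
        Fintype.card_bool, Fintype.card_fin]
      omega)
  have hρ : Function.Injective (![r, c] : Fin 2 → Tq R) := by
    intro i j h
    fin_cases i <;> fin_cases j
    · rfl
    · exact absurd h hrc
    · exact absurd h.symm hrc
    · rfl
  obtain ⟨j, hj⟩ := hf.ex (fun i => Sum.map id ![r, c] (eP.symm i))
    ((Sum.map_injective.2 ⟨Function.injective_id, hρ⟩).comp eP.symm.injective)
  have h1 := congrArg (MvPolynomial.aeval ξ) hj
  have h2 := (S.D lam hlam).aeval_det hξ (fun i => Sum.map id ![r, c] (eP.symm i))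
    (fun i => Sum.map id ![r, c] (eP.symm i))
  have h3 := (S.D lam hlam).special_minor eP ![r, c] ![r, c]
  rw [map_pow] at h1
  have h4 := h1.trans (h2.trans h3)
  rw [Fintype.card_fin, S.det_pair lam hlam] at h4
  obtain ⟨w, hw, hw2⟩ := exists_root _ 1 _ _ h4
  exact ⟨j, w, hw, hw2⟩

/-- the order of the Pfaffians along the divisor -/
theorem hasOrd_pf (hp : p ≤ d + 1) : HasOrd (S.D lam hlam).z ξ (p - d) f := by
  have hcA : Fintype.card (Fin d × Bool) = 2 * d := by
    simp [mul_comm]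
  refine ⟨fun j => ?_, ?_⟩
  · obtain ⟨r, hr⟩ := hf.sq j
    rcases Nat.lt_or_ge p d with h | h
    · rw [Nat.sub_eq_zero_of_le h.le, pow_zero]
      exact one_dvd _
    · apply dvd_of_sq
      rw [← map_pow, hr]
      have h2 := (S.D lam hlam).aeval_det hξ r r
      have h3 := (S.D lam hlam).dvd_minor (2 * (p - d))
        (by rw [Fintype.card_fin, hcA]; omega) r r
      rw [← h2] at h3
      exact h3
  · rcases Nat.lt_or_ge d p with h | h
    · obtain rfl : p = d + 1 := by omega
      have hne : (S.D lam hlam).r0 ≠ (S.D lam hlam).c0 := by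
        change (Sum.inl ((0 : Fin 1), false) : Tq R) ≠ Sum.inl (0, true)
        simp
      obtain ⟨j, w, hw, hw2⟩ := S.exists_special lam hlam hξ hf rfl _ _ hne
      refine ⟨f j, Submodule.subset_span ⟨j, rfl⟩, w, ?_, by
        rw [Nat.add_sub_cancel_left]; exact hw⟩
      intro h0
      rw [S.mY_z, mul_one] at hw2
      have h1 := congrArg constantCoeff hw2
      rw [map_pow, h0, Mt.cc_detA, zero_pow two_ne_zero] at h1
      exact (S.D lam hlam).hA0 h1.symm
    · -- inside of the block `A`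
      have eP : Fin p × Bool ≃ Fin (2 * p) := Fintype.equivOfCardEq (by simp [mul_comm])
      set u : Fin p × Bool → Fin d × Bool := fun x => (Fin.castLE h x.1, x.2) with hu
      have hui : Function.Injective u := by
        rintro ⟨a, b⟩ ⟨a', b'⟩ h1
        simp only [hu, Prod.mk.injEq] at h1
        exact Prod.ext (Fin.castLE_injective _ h1.1) h1.2
      obtain ⟨j, hj⟩ := hf.ex (fun i => Sum.inl (u (eP.symm i)))
        (Sum.inl_injective.comp (hui.comp eP.symm.injective))
      refine ⟨f j, Submodule.subset_span ⟨j, rfl⟩, MvPolynomial.aeval ξ (f j), ?_, ?_⟩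
      · intro h0
        have h1 := congrArg (MvPolynomial.aeval ξ) hj
        rw [map_pow] at h1
        have h2 := (S.D lam hlam).aeval_det hξ (fun i => Sum.inl (u (eP.symm i)))
          (fun i => Sum.inl (u (eP.symm i)))
        have h3 := congrArg constantCoeff (h1.trans h2)
        rw [map_pow, h0, (S.D lam hlam).minor_A (fun i => u (eP.symm i))
          (fun i => u (eP.symm i))] at h3
        have h4 : ((S.D lam hlam).A0.submatrix (fun i => u (eP.symm i)) (fun i => u (eP.symm i)))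
            = (lam • jm (fun x y => S.sg (Sum.inl (u x)) (Sum.inl (u y)))).submatrix eP.symm
              eP.symm := by
          ext1 x y
          change lam • S.A1 (u (eP.symm x)) (u (eP.symm y)) = lam • jm _ (eP.symm x) (eP.symm y)
          congr 1
          rw [A1, jm, jm, Matrix.of_apply, Matrix.of_apply]
          have h5 : (u (eP.symm y) = fl (u (eP.symm x))) ↔ eP.symm y = fl (eP.symm x) := by
            have h6 : fl (u (eP.symm x)) = u (fl (eP.symm x)) := rfl
            rw [h6, hui.eq_iff]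
          simp only [h5]
        rw [h4, Matrix.det_submatrix_equiv_self, Matrix.det_smul] at h3
        have h7 := det_jm (fun x y => S.sg (Sum.inl (u x)) (Sum.inl (u y))) (fun x =>
          S.sg_sq _ _ fun h8 => fl_ne x (hui (Sum.inl_injective h8)).symm)
        rw [zero_pow two_ne_zero, eq_comm, mul_eq_zero] at h3
        rcases h3 with h3 | h3
        · exact pow_ne_zero _ hlam h3
        · rw [h3, mul_zero] at h7
          exact zero_ne_one h7
      · rw [Nat.sub_eq_zero_of_le h, pow_zero, one_mul]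

/-- the exceptional coordinates -/
theorem gives_all (hp : p = d + 1) (t : σ)
    (ht : t ≠ (S.D lam hlam).z) (hexc : (S.D lam hlam).IsExc t) :
    Gives (S.D lam hlam).z ξ (p - d) f t := by
  obtain ⟨r, c, hsg, rfl⟩ := hexc
  change S.sg (Sum.inr r) (Sum.inr c) ≠ 0 at hsg
  change S.ix (Sum.inr r) (Sum.inr c) ≠ (S.D lam hlam).z at ht
  change Gives (S.D lam hlam).z ξ (p - d) f (S.ix (Sum.inr r) (Sum.inr c))
  have hne : r ≠ c := fun h => S.ne_of_sg hsg (by rw [h])
  obtain ⟨j, w, hw, hw2⟩ := S.exists_special lam hlam hξ hf hp r c hne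
  rw [S.mY_ne lam hlam r c hne ht, mul_comm] at hw2
  obtain ⟨w', hw', hw2'⟩ := exists_root (S.ix (Sum.inr r) (Sum.inr c)) 1 w _ hw2
  refine ⟨f j, Submodule.subset_span ⟨j, rfl⟩, w, ?_, by
    rw [hp, Nat.add_sub_cancel_left]; exact hw⟩
  rw [hw', pow_one, mul_comm]
  refine isCoord_unit_mul ?_ ⟨constantCoeff_X _, ?_, ?_⟩
  · intro h0
    have h1 := congrArg constantCoeff hw2'
    rw [map_pow, h0, Mt.cc_detA, zero_pow two_ne_zero] at h1
    exact (S.D lam hlam).hA0 h1.symm
  · classical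
    rw [coeff_X, if_pos rfl]
    exact one_ne_zero
  · intro l _ hl
    classical
    rw [coeff_X, if_neg]
    intro h6
    exact hl (Finsupp.single_left_injective one_ne_zero h6)

end Sq

namespace Sq

variable {R σ : Type} [Fintype R] [DecidableEq R] [Fintype σ] [DecidableEq σ] {d : ℕ}
  (S : Sq (Fin d × Bool) (Tq R) σ)

/-- **The roots.** -/
theorem roots {τ : Type} [Fintype τ] [DecidableEq τ] {κ : τ → Type} [∀ t, Fintype (κ t)]
    (p : τ → ℕ) (f : (t : τ) → κ t → MvPolynomial σ ℂ) (hf : ∀ t, S.IsPf (p t) (f t))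
    {κ1 : Type} (f1 : κ1 → MvPolynomial σ ℂ) (hf1 : S.IsPf (d + 1) f1)
    (hp : ∀ t, p t ≤ d + 1) (b : Polynomial ℂ) (H : MvPolynomial σ ℂ)
    (hb : Pool.Agent.W574.LM.IsLocEq H (prodFam f) b)
    (hH : MvPolynomial.constantCoeff H ≠ 0)
    (hchart : ∀ (lam : ℂ) (hlam : lam ≠ 0), ∃ ξ, (S.D lam hlam).IsChart ξ)
    (l : ℕ) (hl : l < ∑ t, (p t - d)) (ν : ℕ)
    (hν : Nat.card {t // ∃ r c, r ≠ c ∧ t = S.ix (Sum.inr r) (Sum.inr c)} = ν) :
    b.eval (-((ν : ℂ) + l) / (∑ t, (p t - d) : ℕ)) = 0 := by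
  classical
  obtain ⟨t0, _, ht0⟩ := Finset.exists_ne_zero_of_sum_ne_zero
    (by omega : ∑ t, (p t - d) ≠ 0)
  have hpt0 : p t0 = d + 1 := by
    have := hp t0
    omega
  obtain ⟨lam, hlam, hlH⟩ := exists_scale H hH S.dl
  obtain ⟨ξ, hξ⟩ := hchart lam hlam
  obtain ⟨_, F, _, U, hU, hFU⟩ := S.hasOrd_pf lam hlam hξ hf1 (by omega)
  rw [Nat.add_sub_cancel_left] at hFU
  refine (S.D lam hlam).main hξ _ b H hb ?_ _ l hl
    (hasOrd_prod _ ξ _ _ fun t => S.hasOrd_pf lam hlam hξ (hf t) (hp t)) ?_ F U hU hFU ν ?_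
  · rw [cc_aeval]
    have h2 : (fun t => constantCoeff (ξ t)) = fun t => lam * S.dl t := by
      funext t
      exact S.cc_xi hξ t
    rw [h2]
    exact hlH
  · intro t ht hexc
    exact gives_prod _ ξ _ _ (fun t => S.hasOrd_pf lam hlam hξ (hf t) (hp t)) t0 t
      (S.gives_all lam hlam hξ (hf t0) hpt0 t ht hexc)
  · rw [← hν, ← Nat.card_eq_fintype_card]
    refine Nat.card_congr (Equiv.subtypeEquivRight fun t => ?_)
    constructor
    · rintro ⟨r, c, h, h'⟩
      exact ⟨r, c, fun h2 => S.ne_of_sg h (by rw [h2]), h'⟩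
    · rintro ⟨r, c, h, h'⟩
      exact ⟨r, c, S.sg_ne fun h2 => h (Sum.inr_injective h2), h'⟩

end Sq

section Instance

variable {n d r : ℕ} (e : (Fin d × Bool) ⊕ Tq (Fin r) ≃ Fin n)

/-- the data of the generic skew symmetric matrix -/
noncomputable def gK1 (t0 : {q : Fin n × Fin n // q.1 < q.2}) :
    Sq (Fin d × Bool) (Tq (Fin r)) {q : Fin n × Fin n // q.1 < q.2} where
  ix := fun x y => six t0 (e x) (e y)
  sg := fun x y => ssg (e x) (e y)
  sg_sq := fun x y h => by
    rcases lt_or_gt_of_ne (fun h1 => h (e.injective h1)) with h1 | h1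
    · rw [ssg_lt h1, mul_one]
    · rw [ssg_gt h1]; norm_num
  sg_anti := fun x y => by
    rcases lt_trichotomy (e x) (e y) with h | h | h
    · rw [ssg_lt h, ssg_gt h]
    · rw [h, ssg_self, neg_zero]
    · rw [ssg_lt h, ssg_gt h, neg_neg]
  ix_symm := fun x y => by
    rcases lt_trichotomy (e x) (e y) with h | h | h
    · rw [six_lt h, six_gt h]
    · rw [h]
    · rw [six_lt h, six_gt h]
  ix_inj := fun x y x' y' h h' hh => by
    rcases lt_or_gt_of_ne (fun h1 => h (e.injective h1)) with h1 | h1 <;>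
      rcases lt_or_gt_of_ne (fun h1 => h' (e.injective h1)) with h2 | h2
    · rw [six_lt h1, six_lt h2, Subtype.mk.injEq, Prod.mk.injEq, e.injective.eq_iff,
        e.injective.eq_iff] at hh
      exact Or.inl hh
    · rw [six_lt h1, six_gt h2, Subtype.mk.injEq, Prod.mk.injEq, e.injective.eq_iff,
        e.injective.eq_iff] at hh
      exact Or.inr hh
    · rw [six_gt h1, six_lt h2, Subtype.mk.injEq, Prod.mk.injEq, e.injective.eq_iff,
        e.injective.eq_iff] at hh
      exact Or.inr ⟨hh.2, hh.1⟩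
    · rw [six_gt h1, six_gt h2, Subtype.mk.injEq, Prod.mk.injEq, e.injective.eq_iff,
        e.injective.eq_iff] at hh
      exact Or.inl ⟨hh.2, hh.1⟩
  surj := fun t => by
    refine ⟨e.symm t.1.1, e.symm t.1.2, ?_, ?_⟩
    · intro h
      have h1 := e.symm.injective h
      exact absurd h1 (ne_of_lt t.2)
    · rw [Equiv.apply_symm_apply, Equiv.apply_symm_apply, six_lt t.2]

theorem gK1_P (t0 : {q : Fin n × Fin n // q.1 < q.2}) (x y : (Fin d × Bool) ⊕ Tq (Fin r)) :
    (gK1 e t0).P x y = skewMatrix n (e x) (e y) := by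
  change MvPolynomial.C (ssg (e x) (e y)) * MvPolynomial.X (six t0 (e x) (e y)) = _
  rw [skewMatrix, Matrix.of_apply]
  rcases lt_trichotomy (e x) (e y) with h | h | h
  · rw [ssg_lt h, six_lt h, dif_pos h, map_one, one_mul]
  · rw [h, ssg_self, map_zero, zero_mul, dif_neg (lt_irrefl _), dif_neg (lt_irrefl _)]
  · rw [ssg_gt h, six_gt h, dif_neg h.not_gt, dif_pos h, map_neg, map_one, neg_one_mul]

theorem isPf_pfaffians (t0 : {q : Fin n × Fin n // q.1 < q.2}) (p : ℕ) :
    (gK1 e t0).IsPf p (pfaffians n p) := by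
  have hsq : ∀ S : Fin (2 * p) ↪o Fin n,
      pfaffians n p S ^ 2 = ((skewMatrix n).submatrix S S).det := fun S =>
    pf_sq_poly _ fun i j => skewMatrix_skew n _ _
  refine ⟨fun S => ⟨fun i => e.symm (S i), ?_⟩, fun s hs => ?_⟩
  · rw [hsq]
    congr 1
    ext1 i j
    rw [Matrix.submatrix_apply, Matrix.submatrix_apply, gK1_P, Equiv.apply_symm_apply,
      Equiv.apply_symm_apply]
  · obtain ⟨S, π, hS⟩ := exists_sort (fun i => e (s i)) (e.injective.comp hs)
    refine ⟨S, ?_⟩
    rw [hsq]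
    have h1 : (gK1 e t0).P.submatrix s s = ((skewMatrix n).submatrix S S).submatrix π π := by
      ext1 i j
      rw [Matrix.submatrix_apply, Matrix.submatrix_apply, Matrix.submatrix_apply, gK1_P, hS, hS]
    rw [h1, Matrix.det_submatrix_equiv_self]

theorem gK1_chart (t0 : {q : Fin n × Fin n // q.1 < q.2}) (lam : ℂ) (hlam : lam ≠ 0) :
    ∃ ξ, ((gK1 e t0).D lam hlam).IsChart ξ := by
  refine ⟨fun t => ((gK1 e t0).D lam hlam).mX (e.symm t.1.1) (e.symm t.1.2), fun x y => ?_⟩
  have hsk : ∀ x y, ((gK1 e t0).D lam hlam).mX y x = - ((gK1 e t0).D lam hlam).mX x y := fun x y =>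
    congrFun (congrFun ((gK1 e t0).skew lam hlam) x) y
  change _ = MvPowerSeries.C (ssg (e x) (e y)) *
    ((gK1 e t0).D lam hlam).mX (e.symm (six t0 (e x) (e y)).1.1)
      (e.symm (six t0 (e x) (e y)).1.2)
  rcases lt_trichotomy (e x) (e y) with h | h | h
  · rw [ssg_lt h, six_lt h, map_one, one_mul, Equiv.symm_apply_apply, Equiv.symm_apply_apply]
  · rw [h, ssg_self, map_zero, zero_mul]
    have hxy : x = y := e.injective h
    subst hxy
    have h1 := hsk x x
    have h2 : (MvPowerSeries.C (2 : ℂ) : MvPowerSeries {q : Fin n × Fin n // q.1 < q.2} ℂ) *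
        ((gK1 e t0).D lam hlam).mX x x = 0 := by
      rw [show (2 : ℂ) = 1 + 1 by norm_num, map_add, map_one]
      linear_combination h1
    have h3 := congrArg (fun f => MvPowerSeries.C (2⁻¹ : ℂ) * f) h2
    simp only [← mul_assoc, ← map_mul, mul_zero] at h3
    rwa [inv_mul_cancel₀ (two_ne_zero), map_one, one_mul] at h3
  · rw [ssg_gt h, six_gt h, map_neg, map_one, neg_one_mul, Equiv.symm_apply_apply,
      Equiv.symm_apply_apply, hsk y x]

end Instance

theorem pf_top (n d l : ℕ) {τ : Type} [Fintype τ] [DecidableEq τ] (p : τ → ℕ)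
    (hn : 2 * d + 2 ≤ n) (hp : ∀ t, p t ≤ d + 1)
    (b : Polynomial ℂ) (H : MvPolynomial {q : Fin n × Fin n // q.1 < q.2} ℂ)
    (hb : Pool.Agent.W574.LM.IsLocEq H (prodFam fun t => pfaffians n (p t)) b)
    (hH : MvPolynomial.constantCoeff H ≠ 0) (hl : l < ∑ t, (p t - d)) :
    b.eval (-(((n : ℂ) - 2 * d) * (n - 2 * d - 1) / 2 + l) / (∑ t, (p t - d) : ℕ)) = 0 := by
  classical
  obtain ⟨r, hr⟩ : ∃ r, n = 2 * d + (2 + r) := ⟨n - 2 * d - 2, by omega⟩
  have e : (Fin d × Bool) ⊕ Tq (Fin r) ≃ Fin n := Fintype.equivOfCardEq (by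
    simp only [Tq, Fintype.card_sum, Fintype.card_prod, Fintype.card_fin, Fintype.card_bool]
    omega)
  have s0 : {q : Fin n × Fin n // q.1 < q.2} :=
    ⟨(⟨0, by omega⟩, ⟨1, by omega⟩), by simp [Fin.lt_def]⟩
  have hmain := (gK1 e s0).roots p (fun t => pfaffians n (p t))
    (fun t => isPf_pfaffians e s0 (p t)) _ (isPf_pfaffians e s0 (d + 1))
    hp b H hb hH (gK1_chart e s0) l hl
    ((n - 2 * d).choose 2) ?_
  · have h3 : (((n - 2 * d).choose 2 : ℕ) : ℂ) = ((n : ℂ) - 2 * d) * (n - 2 * d - 1) / 2 := by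
      rw [Nat.cast_choose_two, Nat.cast_sub (by omega)]
      push_cast
      ring
    rw [← h3]
    exact hmain
  · have h4 : Nat.card {t // ∃ r c, r ≠ c ∧ t = (gK1 e s0).ix (Sum.inr r) (Sum.inr c)}
        = Nat.card {q : Sym2 (Tq (Fin r)) // ¬ q.IsDiag} := by
      symm
      refine Nat.card_eq_of_bijective (fun q => ⟨Sym2.lift ⟨fun r c => (gK1 e s0).ix (Sum.inr r)
        (Sum.inr c), fun r c => (gK1 e s0).ix_symm _ _⟩ q.1, ?_⟩) ⟨?_, ?_⟩
      · obtain ⟨q, hq⟩ := q
        induction q using Sym2.ind with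
        | _ x y =>
          rw [Sym2.mk_isDiag_iff] at hq
          exact ⟨x, y, hq, rfl⟩
      · rintro ⟨q, hq⟩ ⟨q', hq'⟩ h
        induction q using Sym2.ind with
        | _ x y =>
          induction q' using Sym2.ind with
          | _ x' y' =>
            rw [Sym2.mk_isDiag_iff] at hq hq'
            rw [Subtype.mk.injEq] at h
            change (gK1 e s0).ix (Sum.inr x) (Sum.inr y) = (gK1 e s0).ix (Sum.inr x')
              (Sum.inr y') at h
            apply Subtype.ext
            change s(x, y) = s(x', y')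
            rw [Sym2.eq_iff]
            rcases (gK1 e s0).ix_inj _ _ _ _ (fun h => hq (Sum.inr_injective h))
              (fun h => hq' (Sum.inr_injective h)) h with h | h
            · exact Or.inl ⟨Sum.inr_injective h.1, Sum.inr_injective h.2⟩
            · exact Or.inr ⟨Sum.inr_injective h.1, Sum.inr_injective h.2⟩
      · rintro ⟨t, x, y, hxy, h⟩
        exact ⟨⟨s(x, y), by rw [Sym2.mk_isDiag_iff]; exact hxy⟩, Subtype.ext h.symm⟩
    rw [h4, Nat.card_eq_fintype_card, Sym2.card_subtype_not_diag]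
    have h5 : Fintype.card (Tq (Fin r)) = n - 2 * d := by
      simp only [Tq, Fintype.card_sum, Fintype.card_prod, Fintype.card_fin, Fintype.card_bool]
      omega
    rw [h5]


end Pool.Agent.T2h14.DA
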