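import Pool.Agent.T2h14.DA.Defs
import Pool.Agent.T2h14.DA.Gen
import Pool.Agent.T2h14.DA.Skw
import Pool.Agent.R852.MX.Roots

set_option autoImplicit false
set_option linter.unusedSectionVars false
set_option linter.unusedVariables false

/-! # The roots up to integers, for minors and Pfaffians of all sizes -/

namespace Pool.Agent.T2h14.DA

open MvPolynomial Pool.Agent.W574.SM Pool.Agent.W574.LM Pool.Agent.H628R4.TP
  Pool.Agent.W574.HS Pool.Agent.W574.RO Pool.Agent.Y229 Pool.Agent.TH192.DT Pool.Agent.TH192.MT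
  Pool.Agent.R852.MX

theorem arith (b : Polynomial ℂ) (c k k' A ν N : ℕ) (hA : 0 < A) (hν : ν = (k + 1) * (c + k'))
    (hN : N = (k + 1) * A) (h : ∀ l, l < A → b.eval (-((c : ℂ) + l) / (A : ℕ)) = 0) :
    ∃ i : ℤ, b.eval (-(ν : ℂ) / (N : ℕ) + i) = 0 := by
  obtain ⟨e, he⟩ : ∃ e, k' / A = e := ⟨_, rfl⟩
  obtain ⟨l, hl⟩ : ∃ l, k' % A = l := ⟨_, rfl⟩
  refine ⟨(e : ℤ), ?_⟩
  have h1 := h l (by rw [← hl]; exact Nat.mod_lt _ hA)
  have h2 : (k' : ℂ) = (l : ℂ) + A * (e : ℂ) := by
    rw [← hl, ← he]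
    exact_mod_cast (Nat.mod_add_div k' A).symm
  have hA0 : (A : ℂ) ≠ 0 := Nat.cast_ne_zero.2 hA.ne'
  have hk0 : ((k : ℂ) + 1) ≠ 0 := by exact_mod_cast Nat.succ_ne_zero k
  have h3 : -(ν : ℂ) / (N : ℕ) + ((e : ℕ) : ℤ) = -((c : ℂ) + (l : ℕ)) / (A : ℕ) := by
    rw [hν, hN]
    push_cast
    rw [h2]
    field_simp
    ring
  rw [h3]
  exact h1

theorem arith0 (b : Polynomial ℂ) (ν N : ℕ) (x : ℂ) (hx : (ν : ℂ) = x)
    (h : b.eval (-(x + ((0 : ℕ) : ℂ)) / (N : ℕ)) = 0) :
    ∃ i : ℤ, b.eval (-(ν : ℂ) / (N : ℕ) + i) = 0 := by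
  refine ⟨0, ?_⟩
  rw [Nat.cast_zero, add_zero] at h
  rw [Int.cast_zero, add_zero, hx]
  exact h

theorem sum_top {τ : Type} [Fintype τ] (p : τ → ℕ) (r d k : ℕ) (hk : r = d + k + 1)
    (h : ∀ t, d < p t → p t = r) : ∑ t, (p t - d) = (k + 1) * ∑ t, (p t - (d + k)) := by
  rw [Finset.mul_sum]
  refine Finset.sum_congr rfl fun t _ => ?_
  rcases Nat.lt_or_ge d (p t) with h1 | h1
  · rw [h t h1, hk]
    have e1 : d + k + 1 - d = k + 1 := by omega
    have e2 : d + k + 1 - (d + k) = 1 := by omega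
    rw [e1, e2, mul_one]
  · have e1 : p t - d = 0 := by omega
    have e2 : p t - (d + k) = 0 := by omega
    rw [e1, e2, mul_zero]

/-- the roots of products of determinantal ideals, up to integers -/
theorem ideal_rootsZ (S : MSpace) {τ : Type} [Fintype τ] [DecidableEq τ] (p : τ → ℕ)
    (hp : Adm S p) (b : Polynomial ℂ) (H : MvPolynomial S.Var ℂ)
    (hH : MvPolynomial.constantCoeff H ≠ 0)
    (hb : IsLocEq H (prodFam fun t => S.minors (p t)) b) (d : Fin S.rk)
    (hd : 0 < ∑ t, (p t - (d : ℕ))) :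
    ∃ i : ℤ, b.eval (-(S.codim d : ℂ) / (∑ t, (p t - (d : ℕ)) : ℕ) + i) = 0 := by
  obtain ⟨t1, _, ht1⟩ := Finset.exists_ne_zero_of_sum_ne_zero hd.ne'
  cases S with
  | gen m n =>
    have hp' : ∀ t, p t ≤ m ∧ p t ≤ n := hp
    have h5 : (d : ℕ) < min m n := d.2
    by_cases hs : ∃ t, (d : ℕ) < p t ∧ p t < m ∧ p t < n
    · obtain ⟨t0, h0, h1, h2⟩ := hs
      have h3 := generic_roots m n d 0 p (fun t => (hp' t).1) (fun t => (hp' t).2) t0 h0
        h1 h2 b H hb hH hd
      refine arith0 b _ _ _ ?_ h3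
      change (((m - d) * (n - d) : ℕ) : ℂ) = _
      rw [Nat.cast_mul, Nat.cast_sub (by omega), Nat.cast_sub (by omega)]
    · push Not at hs
      obtain ⟨k, hk⟩ : ∃ k, min m n = (d : ℕ) + k + 1 := ⟨min m n - d - 1, by omega⟩
      have htop : ∀ t, (d : ℕ) < p t → p t = min m n := by
        intro t ht
        have h1 := hs t ht
        have h2 := hp' t
        omega
      have hsum := sum_top p _ d k hk htop
      have hA : 0 < ∑ t, (p t - ((d : ℕ) + k)) := by
        rw [hsum] at hd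
        exact Nat.pos_of_mul_pos_left hd
      refine arith b ((m - (d + k)) * (n - (d + k))) k k _ _ _ hA ?_ hsum fun l hl => ?_
      · change (m - d) * (n - d) = _
        rcases Nat.le_total m n with h | h
        · have e1 : m = d + k + 1 := by omega
          obtain ⟨e, he⟩ := Nat.exists_eq_add_of_le h
          have e2 : m - d = k + 1 := by omega
          have e3 : n - d = k + 1 + e := by omega
          have e4 : m - (d + k) = 1 := by omega
          have e5 : n - (d + k) = 1 + e := by omega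
          rw [e2, e3, e4, e5]
          ring
        · have e1 : n = d + k + 1 := by omega
          obtain ⟨e, he⟩ := Nat.exists_eq_add_of_le h
          have e2 : n - d = k + 1 := by omega
          have e3 : m - d = k + 1 + e := by omega
          have e4 : n - (d + k) = 1 := by omega
          have e5 : m - (d + k) = 1 + e := by omega
          rw [e2, e3, e4, e5]
          ring
      · have h3 := generic_top m n (d + k) l p (by omega) (by omega)
          (fun t => by have := hp' t; omega) b H hb hH hl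
        rw [Nat.cast_mul, Nat.cast_sub (show (d : ℕ) + k ≤ m by omega),
          Nat.cast_sub (show (d : ℕ) + k ≤ n by omega)]
        exact h3
  | sym n =>
    have hp' : (∀ t, p t ≤ n) ∧ ((∃ t, p t = n) → n ≤ 1 ∨ ∃ t, p t + 1 = n) := hp
    have h6 : (d : ℕ) < n := d.2
    have h7 : (((MSpace.sym n).codim d : ℕ) : ℂ) = ((n : ℂ) - (d : ℕ)) * (n - (d : ℕ) + 1) / 2 := by
      change (((n - d) * (n - d + 1) / 2 : ℕ) : ℂ) = _
      have h5 : (n - d) * (n - d + 1) / 2 = (n - d + 1).choose 2 := by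
        rw [Nat.choose_two_right, Nat.add_sub_cancel, mul_comm]
      rw [h5, Nat.cast_choose_two, Nat.cast_add, Nat.cast_sub (by omega), Nat.cast_one]
      ring
    by_cases hs : ∃ t, (d : ℕ) < p t ∧ p t < n
    · obtain ⟨t0, h0, h1⟩ := hs
      have h3 := symm_roots n d 0 p hp'.1 t0 h0 h1 b H hb hH hd
      exact arith0 b _ _ _ h7 h3
    · push Not at hs
      have ht1n : p t1 = n := le_antisymm (hp'.1 t1) (hs t1 (by omega))
      have hdn : n = d + 1 := by
        rcases hp'.2 ⟨t1, ht1n⟩ with h | ⟨t2, ht2⟩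
        · omega
        · by_contra hcon
          have := hs t2 (by omega)
          omega
      have h3 := symm_top n d 0 p h6 (fun t => by have := hp'.1 t; omega) b H hb hH hd
      exact arith0 b _ _ _ h7 h3
  | skew n =>
    have hp' : ∀ t, 2 * p t ≤ n := hp
    have h6 : (d : ℕ) < n / 2 := d.2
    by_cases hs : ∃ t, (d : ℕ) < p t ∧ 2 * p t + 1 < n
    · obtain ⟨t0, h0, h1⟩ := hs
      have h3 := pf_roots n d 0 p hp' t0 h0 h1 b H hb hH hd
      refine arith0 b _ _ _ ?_ h3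
      change (((n - 2 * d) * (n - 2 * d - 1) / 2 : ℕ) : ℂ) = _
      have h5 : (n - 2 * d) * (n - 2 * d - 1) / 2 = (n - 2 * d).choose 2 := by
        rw [Nat.choose_two_right]
      rw [h5, Nat.cast_choose_two, Nat.cast_sub (by omega)]
      push_cast
      ring
    · push Not at hs
      obtain ⟨k, hk⟩ : ∃ k, n / 2 = (d : ℕ) + k + 1 := ⟨n / 2 - d - 1, by omega⟩
      have htop : ∀ t, (d : ℕ) < p t → p t = n / 2 := by
        intro t ht
        have h1 := hs t ht
        have h2 := hp' t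
        omega
      have hsum := sum_top p _ d k hk htop
      have hA : 0 < ∑ t, (p t - ((d : ℕ) + k)) := by
        rw [hsum] at hd
        exact Nat.pos_of_mul_pos_left hd
      refine arith b ((n - 2 * (d + k)) * (n - 2 * (d + k) - 1) / 2) k (2 * k) _ _ _ hA ?_ hsum
        fun l hl => ?_
      · change (n - 2 * d) * (n - 2 * d - 1) / 2 = _
        rcases Nat.even_or_odd' n with ⟨c, hc | hc⟩
        · have e2 : n - 2 * d = 2 * (k + 1) := by omega
          have e3 : n - 2 * d - 1 = 2 * k + 1 := by omega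
          have e4 : n - 2 * (d + k) = 2 := by omega
          rw [e3, e2, e4]
          have e5 : 2 * (k + 1) * (2 * k + 1) = 2 * ((k + 1) * (2 * k + 1)) := by ring
          rw [e5, Nat.mul_div_cancel_left _ (by norm_num)]
          norm_num
          omega
        · have e2 : n - 2 * d = 2 * k + 3 := by omega
          have e3 : n - 2 * d - 1 = 2 * (k + 1) := by omega
          have e4 : n - 2 * (d + k) = 3 := by omega
          rw [e3, e2, e4]
          have e5 : (2 * k + 3) * (2 * (k + 1)) = 2 * ((k + 1) * (2 * k + 3)) := by ring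
          rw [e5, Nat.mul_div_cancel_left _ (by norm_num)]
          norm_num
          omega
      · have h3 := pf_top n (d + k) l p (by omega) (fun t => by
          rcases Nat.lt_or_ge (d : ℕ) (p t) with h | h
          · have := htop t h; omega
          · omega) b H hb hH hl
        have h5 : (((n - 2 * ((d : ℕ) + k)) * (n - 2 * ((d : ℕ) + k) - 1) / 2 : ℕ) : ℂ) =
            ((n : ℂ) - 2 * ((d : ℕ) + k : ℕ)) * (n - 2 * ((d : ℕ) + k : ℕ) - 1) / 2 := by
          have h5 : (n - 2 * ((d : ℕ) + k)) * (n - 2 * ((d : ℕ) + k) - 1) / 2 =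
              (n - 2 * ((d : ℕ) + k)).choose 2 := by
            rw [Nat.choose_two_right]
          rw [h5, Nat.cast_choose_two, Nat.cast_sub (by omega)]
          push_cast
          ring
        rw [h5]
        exact h3

variable {T B : ℕ}

theorem minors_ne' (S : MSpace) {τ : Type} (p : τ → ℕ) (hp : Adm S p) (t : τ) :
    ∃ j, S.minors (p t) j ≠ 0 := by
  cases S with
  | gen m n =>
    have hp' : ∀ t, p t ≤ m ∧ p t ≤ n := hp
    exact generic_ne (hp' t).1 (hp' t).2
  | sym n =>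
    have hp' : (∀ t, p t ≤ n) ∧ ((∃ t, p t = n) → n ≤ 1 ∨ ∃ t, p t + 1 = n) := hp
    exact symm_ne (hp'.1 t)
  | skew n =>
    have hp' : ∀ t, 2 * p t ≤ n := hp
    exact pfaffians_ne (hp' t)

theorem blkFam_ne' (S : MSpace) (p : Fin T → ℕ) (β : Fin T → Fin B) (hp : Adm S p)
    (b : Fin B) : ∃ j, blkFam S p β b j ≠ 0 := by
  choose j hj using fun t : {t // β t = b} => minors_ne' S p hp t.1
  refine ⟨j, ?_⟩
  change ∏ t : {t // β t = b}, S.minors (p t.1) (j t) ≠ 0
  exact Finset.prod_ne_zero_iff.2 fun t _ => hj t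

/-- the sizes of the products -/
theorem adm_mul (S : MSpace) (p : Fin T → ℕ) (β : Fin T → Fin B) (a : Fin B → ℕ)
    (ha : ∀ b, 0 < a b) (hp : Adm S p) :
    Adm S (fun x : (Σ q : (Σ b, Fin (a b)), {t // β t = q.1}) => p x.2.1) := by
  have hx : ∀ t : Fin T, ∃ x : (Σ q : (Σ b, Fin (a b)), {t // β t = q.1}), x.2.1 = t := fun t =>
    ⟨⟨⟨β t, ⟨0, ha (β t)⟩⟩, ⟨t, rfl⟩⟩, rfl⟩
  cases S with
  | gen m n =>
    have hp' : ∀ t, p t ≤ m ∧ p t ≤ n := hp
    exact fun x => hp' _
  | sym n =>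
    have hp' : (∀ t, p t ≤ n) ∧ ((∃ t, p t = n) → n ≤ 1 ∨ ∃ t, p t + 1 = n) := hp
    refine ⟨fun x => hp'.1 _, ?_⟩
    rintro ⟨x, hxn⟩
    rcases hp'.2 ⟨_, hxn⟩ with h | ⟨t, ht⟩
    · exact Or.inl h
    · obtain ⟨y, hy⟩ := hx t
      exact Or.inr ⟨y, by change p y.2.1 + 1 = n; rw [hy]; exact ht⟩
  | skew n =>
    have hp' : ∀ t, 2 * p t ≤ n := hp
    exact fun x => hp' _

theorem mix_dataZ (S : MSpace) (p : Fin T → ℕ) (β : Fin T → Fin B) (a : Fin B → ℕ)
    (ha : ∀ b, 0 < a b) (hp : Adm S p) (b : Polynomial ℂ) (hb : PowData a (blkFam S p β) b)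
    (d : Fin S.rk) (hd : 0 < ∑ t, a (β t) * (p t - (d : ℕ))) :
    ∃ i : ℤ, b.eval (-(S.codim d : ℂ) / (∑ t, a (β t) * (p t - (d : ℕ)) : ℕ) + i) = 0 := by
  classical
  obtain ⟨t0, _, ht0⟩ := Finset.exists_ne_zero_of_sum_ne_zero hd.ne'
  obtain ⟨H, hH, hHb⟩ := hb.ideal ⟨β t0, left_ne_zero_of_mul ht0⟩
  have h1 : IsLocEq H (prodFam fun x : (Σ q : (Σ b, Fin (a b)), {t // β t = q.1}) =>
      S.minors (p x.2.1)) b := by
    refine locEq_reindex (Equiv.piCurry
      (fun (q : Σ b, Fin (a b)) (t : {t // β t = q.1}) => S.Idx (p t.1))) H _ _ ?_ b hHb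
    intro J
    exact (Fintype.prod_sigma (fun x : (Σ q : (Σ b, Fin (a b)), {t // β t = q.1}) =>
      S.minors (p x.2.1) (J x))).symm
  have h2 := ideal_rootsZ S (fun x : (Σ q : (Σ b, Fin (a b)), {t // β t = q.1}) => p x.2.1)
    (adm_mul S p β a ha hp) b H hH h1 d (by rw [sum_mix p β a d]; exact hd)
  rw [sum_mix p β a d] at h2
  exact h2

/-- **The roots, up to integers.** -/
theorem mix_rootsZ (S : MSpace) (p : Fin T → ℕ) (β : Fin T → Fin B) (a : Fin B → ℕ)
    (hp : Adm S p) (ha : ∀ b, 0 < a b) (q : ℤ × ℤ) (hq : q ∈ mixPairs S p β a) :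
    q.1 < 0 ∧ 0 < q.2 ∧
      (∀ b : Polynomial ℂ, IsBFunction (map (Int.castRingHom ℂ) (mixForm S p β a)) b →
        ∃ i : ℤ, b.eval ((q.1 : ℂ) / q.2 + i) = 0) ∧
      ∀ b : Polynomial ℂ, IsLocalBFunction (map (Int.castRingHom ℂ) (mixForm S p β a)) b →
        ∃ i : ℤ, b.eval ((q.1 : ℂ) / q.2 + i) = 0 := by
  classical
  rw [map_mixForm]
  have key : q.1 < 0 ∧ 0 < q.2 ∧ ∀ b : Polynomial ℂ, PowData a (blkFam S p β) b →
      ∃ i : ℤ, b.eval ((q.1 : ℂ) / q.2 + i) = 0 := by
    rw [mixPairs, Finset.mem_union] at hq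
    rcases hq with hq | hq
    · unfold detPairs at hq
      obtain ⟨d, hd, rfl⟩ := Finset.mem_image.1 hq
      rw [Finset.mem_filter, Finset.mem_range] at hd
      have hpos : 0 < S.codim d := S.codim_pos ⟨d, hd.1⟩
      refine ⟨by simp only; omega, by simp only; exact_mod_cast hd.2, fun b hb => ?_⟩
      have h1 := mix_dataZ S p β a ha hp b hb ⟨d, hd.1⟩ hd.2
      push_cast at h1 ⊢
      exact h1
    · obtain ⟨c, _, rfl⟩ := Finset.mem_image.1 hq
      refine ⟨by norm_num, by simp only; exact_mod_cast ha c, fun b hb => ⟨0, ?_⟩⟩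
      have h1 := hb.strict c 0 (ha c)
      simp only [Nat.cast_zero, add_zero] at h1
      push_cast
      rw [add_zero]
      exact h1
  refine ⟨key.1, key.2.1, fun b hb => key.2.2 b
    (powData_global a _ (blkFam_ne' S p β hp) b hb), fun b hb => key.2.2 b
    (powData_local a _ (blkFam_ne' S p β hp) b hb)⟩

end Pool.Agent.T2h14.DA
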